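import Pool.Agent.Results.MP_152d63_al.BelowTwo

/-! The negated form of the question, as a consequence of the classification below two. -/

namespace Pool.Agent.Lib.MP_152d63_al.Variants.NoDimInGap

open CategoryTheory MonoidalCategory Pool.Agent.Lib.MP_152d63_al

universe v u

theorem result (C : Type u) [Category.{v} C] [Abelian C] [Linear ℂ C] [MonoidalCategory C]
    [MonoidalPreadditive C] [MonoidalLinear ℂ C] [RigidCategory C] (hC : IsFusion C)
    (P : Pivotal C) (hP : P.IsSpherical) (n : ℕ) (S : Fin n → C) (hS : IsListOfSimples S) :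
    ∃ d : Fin n → ℂ, (∀ i, P.dim (S i) = d i • 𝟙 (𝟙_ C)) ∧
      ∃ x : ℝ, ∑ i, d i ^ 2 = (x : ℂ) ∧ (x ≤ (5 - Real.sqrt 5) / 2 ∨ Real.sqrt 2 ≤ x) := by
  obtain ⟨d, h1, x, h2, h3⟩ := Pool.Agent.Results.MP_152d63_al.BelowTwo.result C hC P hP n S hS
  refine ⟨d, h1, x, h2, ?_⟩
  have s2 : Real.sqrt 2 < 3 / 2 := by
    rw [Real.sqrt_lt' (by norm_num)]
    norm_num
  have s5 : Real.sqrt 5 < 2.4 := by
    rw [Real.sqrt_lt' (by norm_num)]
    norm_num
  rcases h3 with h | h | h | h | ⟨h, h'⟩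
  · left; linarith
  · left; linarith
  · right; linarith
  · right; linarith
  · right
    have hk : (3 : ℝ) ≤ (minpoly ℚ x).natDegree := by exact_mod_cast h
    refine s2.le.trans (le_trans ?_ h')
    rw [le_div_iff₀ (by positivity)]
    linarith

end Pool.Agent.Lib.MP_152d63_al.Variants.NoDimInGap
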